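import Mathlib
import Pool.Agent.H813R3.HtQ

set_option autoImplicit false

/-!
# Moduli heights are comparable to minimal heights in orbits

Let `X` and `Y` be quasi-projective varieties over an algebraic closure `Qbar` of `ℚ` and let
`π : X → Y` be the quotient map of `X` by a group `G`: a morphism whose fibres are the orbits of `G`.
Then `h_Y (π x)` is comparable with the infimum of `h_X (g x)` over `g` in `G`, for arbitrary
ample heights on `X` and `Y`.
-/

namespace Pool.Agent.Results.MP_216eb3_nt.GeometricQuotient

open Pool.Agent.H813R3.HtGeo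

universe u

/-- **Question 1: yes.** -/
theorem result {N M : ℕ} (X : Set (PP N)) (Y : Set (PP M)) (hX : IsQuasiProj X)
    (_hY : IsQuasiProj Y) (G : Type u) [Group G] [MulAction G X]
    (π : X → Y) (hreg : IsRegular (fun x : X => (π x : PP M))) (_hsurj : Function.Surjective π)
    (horb : ∀ x x' : X, π x = π x' ↔ ∃ g : G, g • x = x')
    (hgtX : X → ℝ) (hgtY : Y → ℝ) (ampleX : IsAmpleHeight X hgtX) (ampleY : IsAmpleHeight Y hgtY) :
    Comparable (fun x : X => hgtY (π x)) (fun x : X => ⨅ g : G, hgtX (g • x)) :=
  orbit_comparison hX π hreg ampleX ampleY (fun x g => g • x) horb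

end Pool.Agent.Results.MP_216eb3_nt.GeometricQuotient
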