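import Mathlib
import Pool.Agent.H813R3.RatD2

set_option autoImplicit false

/-!
# Heights of rational maps in their conjugacy class

For rational maps of degree `d` on the projective line, the height on (any embedded model of) the
moduli space `M_d = Rat_d // PGL_2` is comparable with the infimum of the heights of the
conjugates of the map.
-/

namespace Pool.Agent.Results.MP_216eb3_nt.RationalMaps

open Pool.Agent.H813R3.HtGeo

/-- **Question 2: yes.** -/
theorem result {d : ℕ} (hd : 2 ≤ d) {M : ℕ} (Y : Set (PP M)) (_hY : IsQuasiProj Y)
    (π : Rat d → Y) (hreg : IsRegular (fun f : Rat d => (π f : PP M)))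
    (_hsurj : Function.Surjective π)
    (horb : ∀ f g : Rat d, π f = π g ↔ ∃ φ : Matrix.GeneralLinearGroup (Fin 2) (AlgebraicClosure ℚ),
      conj φ f = g) :
    Comparable (fun f : Rat d => height (π f).1)
      (fun f : Rat d => ⨅ φ : Matrix.GeneralLinearGroup (Fin 2) (AlgebraicClosure ℚ),
        height (conj φ f).1) :=
  orbit_comparison (rat_isQuasiProj (by omega)) π hreg
    (isAmpleHeight_height (rat_isQuasiProj (by omega))) (isAmpleHeight_height _hY)
    (fun f φ => conj φ f) horb

end Pool.Agent.Results.MP_216eb3_nt.RationalMaps
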